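import Mathlib

/-!
# From exponential sums to continuous functions
-/

set_option autoImplicit false

open Filter Topology MeasureTheory

namespace Pool.Agent.Helper84.PE

/-- the average of `F` over the points `x i j`, `j < J i` -/
noncomputable def cavg (J : ℕ → ℕ) (x : ℕ → ℕ → ℝ) (i : ℕ) (F : C(UnitAddCircle, ℂ)) : ℂ :=
  (∑ j ∈ Finset.range (J i), F (x i j : UnitAddCircle)) / (J i : ℂ)

theorem cavg_add (J : ℕ → ℕ) (x : ℕ → ℕ → ℝ) (i : ℕ) (F G : C(UnitAddCircle, ℂ)) :
    cavg J x i (F + G) = cavg J x i F + cavg J x i G := by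
  unfold cavg
  simp only [ContinuousMap.add_apply]
  rw [Finset.sum_add_distrib, add_div]

theorem cavg_smul (J : ℕ → ℕ) (x : ℕ → ℕ → ℝ) (i : ℕ) (c : ℂ) (F : C(UnitAddCircle, ℂ)) :
    cavg J x i (c • F) = c * cavg J x i F := by
  unfold cavg
  simp only [ContinuousMap.smul_apply, smul_eq_mul]
  rw [← Finset.mul_sum, mul_div_assoc]

theorem norm_cavg_le (J : ℕ → ℕ) (x : ℕ → ℕ → ℝ) (i : ℕ) (F : C(UnitAddCircle, ℂ)) :
    ‖cavg J x i F‖ ≤ ‖F‖ := by
  unfold cavg
  rw [norm_div, Complex.norm_natCast]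
  rcases Nat.eq_zero_or_pos (J i) with h | h
  · simp [h]
  have hJ : (0 : ℝ) < J i := by exact_mod_cast h
  rw [div_le_iff₀ hJ]
  calc ‖∑ j ∈ Finset.range (J i), F (x i j : UnitAddCircle)‖
      ≤ ∑ j ∈ Finset.range (J i), ‖F (x i j : UnitAddCircle)‖ := norm_sum_le _ _
    _ ≤ ∑ _j ∈ Finset.range (J i), ‖F‖ := Finset.sum_le_sum fun j _ => F.norm_coe_le_norm _
    _ = ‖F‖ * J i := by rw [Finset.sum_const, Finset.card_range, nsmul_eq_mul, mul_comm]

/-- the integral over the circle -/
noncomputable def cint (F : C(UnitAddCircle, ℂ)) : ℂ := ∫ t, F t ∂(AddCircle.haarAddCircle : Measure (AddCircle (1:ℝ)))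

theorem cint_integrable (F : C(UnitAddCircle, ℂ)) :
    Integrable (fun t => F t) (AddCircle.haarAddCircle : Measure (AddCircle (1:ℝ))) :=
  F.continuous.integrable_of_hasCompactSupport (HasCompactSupport.of_compactSpace _)

theorem cint_add (F G : C(UnitAddCircle, ℂ)) : cint (F + G) = cint F + cint G := by
  unfold cint
  simp only [ContinuousMap.add_apply]
  exact integral_add (cint_integrable F) (cint_integrable G)

theorem cint_smul (c : ℂ) (F : C(UnitAddCircle, ℂ)) : cint (c • F) = c * cint F := by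
  unfold cint
  simp only [ContinuousMap.smul_apply, smul_eq_mul]
  exact integral_const_mul _ _

theorem norm_cint_le (F : C(UnitAddCircle, ℂ)) : ‖cint F‖ ≤ ‖F‖ := by
  unfold cint
  have h := norm_integral_le_of_norm_le_const (μ := (AddCircle.haarAddCircle : Measure (AddCircle (1:ℝ))))
    (f := fun t => F t) (C := ‖F‖) (Eventually.of_forall fun t => F.norm_coe_le_norm t)
  simpa using h

theorem cint_fourier (k : ℤ) : cint (fourier k) = if k = 0 then 1 else 0 := by
  have h := congrFun (fourierCoeff_fourier (T := 1) k) 0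
  unfold fourierCoeff at h
  simp only [neg_zero, fourier_zero, one_smul] at h
  unfold cint
  rw [h]
  by_cases hk : k = 0
  · subst hk; simp
  · rw [Pi.single_eq_of_ne (Ne.symm hk), if_neg hk]

theorem tendsto_cavg (J : ℕ → ℕ) (x : ℕ → ℕ → ℝ) (hJ : ∀ᶠ i in atTop, 0 < J i)
    (h : ∀ k : ℤ, k ≠ 0 → Tendsto (fun i => cavg J x i (fourier k)) atTop (𝓝 0)) (F : C(UnitAddCircle, ℂ)) :
    Tendsto (fun i => cavg J x i F) atTop (𝓝 (cint F)) := by
  let S : Submodule ℂ C(UnitAddCircle, ℂ) :=
    { carrier := {F | Tendsto (fun i => cavg J x i F) atTop (𝓝 (cint F))}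
      add_mem' := by
        intro F G hF hG
        simp only [Set.mem_ofPred_eq] at hF hG ⊢
        simp only [cavg_add, cint_add]
        exact hF.add hG
      zero_mem' := by
        simp [cavg, cint]
      smul_mem' := by
        intro c F hF
        simp only [Set.mem_ofPred_eq] at hF ⊢
        simp only [cavg_smul, cint_smul]
        exact hF.const_mul c }
  have h1 : Submodule.span ℂ (Set.range (@fourier 1)) ≤ S := by
    rw [Submodule.span_le]
    rintro _ ⟨k, rfl⟩
    show Tendsto (fun i => cavg J x i (fourier k)) atTop (𝓝 (cint (fourier k)))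
    rw [cint_fourier]
    split_ifs with hk
    · subst hk
      refine tendsto_const_nhds.congr' ?_
      filter_upwards [hJ] with i hi
      have : (J i : ℂ) ≠ 0 := by exact_mod_cast hi.ne'
      simp [cavg, this]
    · exact h k hk
  have hF : F ∈ closure (Submodule.span ℂ (Set.range (@fourier (1:ℝ))) : Set C(UnitAddCircle, ℂ)) := by
    have := span_fourier_closure_eq_top (T := (1:ℝ))
    rw [← Submodule.topologicalClosure_coe, this]
    trivial
  rw [Metric.tendsto_nhds]
  intro ε hε
  obtain ⟨G, hG, hFG⟩ := Metric.mem_closure_iff.1 hF (ε / 3) (by positivity)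
  have h2 : Tendsto (fun i => cavg J x i G) atTop (𝓝 (cint G)) := h1 hG
  rw [Metric.tendsto_nhds] at h2
  filter_upwards [h2 (ε / 3) (by positivity)] with i hi
  rw [dist_eq_norm] at hi ⊢
  have hFG' : ‖F - G‖ < ε / 3 := by rwa [← dist_eq_norm]
  have e1 : cavg J x i F = cavg J x i (F - G) + cavg J x i G := by rw [← cavg_add, sub_add_cancel]
  have e2 : cint F = cint (F - G) + cint G := by rw [← cint_add, sub_add_cancel]
  calc ‖cavg J x i F - cint F‖ = ‖cavg J x i (F - G) + (cavg J x i G - cint G) - cint (F - G)‖ := by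
        rw [e1, e2]; congr 1; ring
    _ ≤ ‖cavg J x i (F - G)‖ + ‖cavg J x i G - cint G‖ + ‖cint (F - G)‖ := by
        refine (norm_sub_le _ _).trans ?_
        gcongr
        exact norm_add_le _ _
    _ < ε / 3 + ε / 3 + ε / 3 := by
        have := norm_cavg_le J x i (F - G)
        have := norm_cint_le (F - G)
        linarith
    _ = ε := by ring

/-- the average of a real function -/
noncomputable def ravg (J : ℕ → ℕ) (x : ℕ → ℕ → ℝ) (i : ℕ) (f : ℝ → ℝ) : ℝ :=
  (∑ j ∈ Finset.range (J i), f (x i j)) / (J i : ℝ)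

theorem tendsto_ravg (J : ℕ → ℕ) (x : ℕ → ℕ → ℝ) (hJ : ∀ᶠ i in atTop, 0 < J i)
    (h : ∀ k : ℤ, k ≠ 0 → Tendsto (fun i => cavg J x i (fourier k)) atTop (𝓝 0)) {f : ℝ → ℝ}
    (hf : Continuous f) (hp : Function.Periodic f 1) :
    Tendsto (fun i => ravg J x i f) atTop (𝓝 (∫ t in (0:ℝ)..1, f t)) := by
  have hp' : Function.Periodic (fun t => (f t : ℂ)) 1 := fun t => by simp only [hp t]
  have hc : Continuous (hp'.lift) :=
    continuous_coinduced_dom.mpr (Complex.continuous_ofReal.comp hf)
  let F : C(UnitAddCircle, ℂ) := ⟨hp'.lift, hc⟩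
  have hF : ∀ t : ℝ, F (t : UnitAddCircle) = (f t : ℂ) := fun t => rfl
  have h1 := tendsto_cavg J x hJ h F
  have e1 : ∀ i, cavg J x i F = ((ravg J x i f : ℝ) : ℂ) := by
    intro i
    unfold cavg ravg
    push_cast
    rfl
  have e2 : cint F = ((∫ t in (0:ℝ)..1, f t : ℝ) : ℂ) := by
    unfold cint
    have h3 := AddCircle.intervalIntegral_preimage (1 : ℝ) 0 (fun t : UnitAddCircle => F t)
    have h4 : (∫ t, F t ∂(AddCircle.haarAddCircle : Measure (AddCircle (1:ℝ)))) = ∫ t : UnitAddCircle, F t := by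
      rw [AddCircle.integral_haarAddCircle]
      simp
    rw [h4, ← h3, zero_add]
    simp only [hF]
    rw [intervalIntegral.integral_ofReal]
  simp only [e1, e2] at h1
  exact (Complex.continuous_re.tendsto _).comp h1

end Pool.Agent.Helper84.PE
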