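import Pool.Agent.Helper65.PE.Crit

/-!
# The gap with the sharp order of magnitude
-/

set_option autoImplicit false

open Filter Topology
open Pool.Agent.Helper65.PE

namespace Pool.Agent.Helper84.PE

variable {g : ℕ → ℕ}

theorem Q_ratio {n : ℕ} (hn : 1 ≤ n) : (n + 2) * Q n ≤ Q (n + 1) := by
  obtain ⟨m, rfl⟩ : ∃ m, n = m + 1 := ⟨n - 1, by omega⟩
  rw [show m + 1 + 1 = m + 2 from rfl, Q_succ]
  nlinarith [Nat.zero_le (m * Q (m + 1)), Nat.zero_le (Q (m + 1)), Nat.zero_le (Q m)]

theorem Q_ratio2 (n : ℕ) : (4 * n + 6) * Q (n + 1) ≤ Q (n + 2) := by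
  rw [Q_succ]; omega

theorem Q_ratio3 (n : ℕ) : 4 * Q (n + 2) ≤ Q (n + 3) := by
  have h := Q_ratio2 (n + 1)
  rw [show n + 1 + 1 = n + 2 from rfl, show n + 1 + 2 = n + 3 from rfl] at h
  nlinarith [Nat.zero_le (n * Q (n + 2))]

theorem bound_of {d g0 g1 a q0 q1 : ℝ} (hg0 : 0 < g0) (ha : 0 < a) (hq1 : 0 < q1) (hg : g1 = g0 * a)
    (h : d ≤ g0 * q0 / (3 * (g1 * q1))) : d ≤ q0 / (3 * (a * q1)) := by
  rw [hg] at h
  refine h.trans (le_of_eq ?_)
  field_simp

theorem comb_lt {m d0 d1 d2 a0 a1 a2 q0 q1 q2 q3 : ℝ} (hm : 0 ≤ m) (p0 : 1 ≤ a0) (p1 : 1 ≤ a1) (p2 : 1 ≤ a2)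
    (ha1 : a1 ≤ m + 2) (hq0 : 0 < q0) (hq1 : 0 < q1) (hq2 : 0 < q2)
    (r1 : (m + 2) * q0 ≤ q1) (r2 : (4 * m + 6) * q1 ≤ q2) (r3 : 4 * q2 ≤ q3)
    (b0 : |d0| ≤ q0 / (3 * (a0 * q1))) (b1 : |d1| ≤ q1 / (3 * (a1 * q2))) (b2 : |d2| ≤ q2 / (3 * (a2 * q3))) :
    |((4 * m + 6) * a1 * d1 + a0 * a1 * d0) - d2| < 1 := by
  have a0p : 0 < a0 := by linarith
  have a1p : 0 < a1 := by linarith
  have a2p : 0 < a2 := by linarith
  have t1 : |(4 * m + 6) * a1 * d1| ≤ 1 / 3 := by
    rw [abs_mul, abs_of_nonneg (by positivity : (0 : ℝ) ≤ (4 * m + 6) * a1)]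
    calc (4 * m + 6) * a1 * |d1| ≤ (4 * m + 6) * a1 * (q1 / (3 * (a1 * q2))) :=
          mul_le_mul_of_nonneg_left b1 (by positivity)
      _ = ((4 * m + 6) * q1) / (3 * q2) := by field_simp
      _ ≤ q2 / (3 * q2) := div_le_div_of_nonneg_right r2 (by positivity)
      _ = 1 / 3 := by field_simp
  have t0 : |a0 * a1 * d0| ≤ 1 / 3 := by
    rw [abs_mul, abs_of_nonneg (by positivity : (0 : ℝ) ≤ a0 * a1)]
    calc a0 * a1 * |d0| ≤ a0 * a1 * (q0 / (3 * (a0 * q1))) := mul_le_mul_of_nonneg_left b0 (by positivity)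
      _ = (a1 * q0) / (3 * q1) := by field_simp
      _ ≤ q1 / (3 * q1) :=
          div_le_div_of_nonneg_right ((mul_le_mul_of_nonneg_right ha1 hq0.le).trans r1) (by positivity)
      _ = 1 / 3 := by field_simp
  have t2 : |d2| ≤ 1 / 12 := by
    refine b2.trans ?_
    calc q2 / (3 * (a2 * q3)) ≤ q2 / (3 * (1 * (4 * q2))) := by
          apply div_le_div_of_nonneg_left hq2.le (by positivity)
          exact mul_le_mul_of_nonneg_left (mul_le_mul p2 r3 (by positivity) a2p.le) (by norm_num)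
      _ = 1 / 12 := by field_simp; norm_num
  have t3 := abs_add_le ((4 * m + 6) * a1 * d1) (a0 * a1 * d0)
  have t4 := abs_sub ((4 * m + 6) * a1 * d1 + a0 * a1 * d0) d2
  linarith

/-- if `g n * Q n * α` is always very near an integer then `α` is a rational combination of `1` and `e`; this is
`Pool.Agent.Helper65.PE.gap` with the bound `N n / (3 N (n + 1))`, and the same proof -/
theorem gap_ratio (hg : Mult g) {α : ℝ}
    (h : ∀ᶠ n : ℕ in atTop, |sd (g n * Q n * α)| ≤ (g n * Q n : ℝ) / (3 * (g (n + 1) * Q (n + 1)))) :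
    ∃ x y : ℚ, α = x * Real.exp 1 + y := by
  obtain ⟨N, hN⟩ := eventually_atTop.1 (h.and (eventually_ge_atTop 1))
  choose a ha using hg.dvd
  have hapos : ∀ n, 0 < a n := fun n => by
    rcases Nat.eq_zero_or_pos (a n) with h0 | h0
    · have := hg.pos (n + 1)
      rw [ha n, h0, mul_zero] at this
      exact absurd this (lt_irrefl _)
    · exact h0
  have hale : ∀ n, a n ≤ n + 1 := fun n => by
    have h1 := hg.le n
    rw [ha n, mul_comm] at h1
    exact Nat.le_of_mul_le_mul_right h1 (hg.pos n)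
  have hale' : ∀ n, (a n : ℝ) ≤ n + 1 := fun n => by exact_mod_cast hale n
  -- the nearest integers satisfy the recurrence
  set R : ℕ → ℤ := fun n => round ((g n : ℝ) * Q n * α) with hR
  have hη : ∀ n, (g n : ℝ) * Q n * α = R n + sd (g n * Q n * α) := fun n => by
    unfold sd
    rw [hR]
    ring
  have hrec : ∀ n, N ≤ n → R (n + 2) = (4 * n + 6) * a (n + 1) * R (n + 1) + a n * a (n + 1) * R n := by
    intro n hn
    have b0 := (hN n hn).1
    have b1 := (hN (n + 1) (by omega)).1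
    have b2 := (hN (n + 2) (by omega)).1
    have hn1 := (hN n hn).2
    have e0 := hη n
    have e1 := hη (n + 1)
    have e2 := hη (n + 2)
    have e : ((R (n + 2) - ((4 * n + 6) * a (n + 1) * R (n + 1) + a n * a (n + 1) * R n) : ℤ) : ℝ) =
        ((4 * n + 6) * a (n + 1) * sd (g (n + 1) * Q (n + 1) * α) + a n * a (n + 1) * sd (g n * Q n * α)) -
          sd (g (n + 2) * Q (n + 2) * α) := by
      have hA : (g (n + 2) : ℝ) * Q (n + 2) * α = (4 * n + 6) * a (n + 1) * (g (n + 1) * Q (n + 1) * α) +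
          a n * a (n + 1) * (g n * Q n * α) := by
        have g1 : (g (n + 1) : ℝ) = g n * a n := by exact_mod_cast ha n
        have g2 : (g (n + 2) : ℝ) = g (n + 1) * a (n + 1) := by exact_mod_cast ha (n + 1)
        rw [Q_succ, g2, g1]
        push_cast
        ring
      rw [e0, e1, e2] at hA
      push_cast
      linarith
    have hlt : |((R (n + 2) - ((4 * n + 6) * a (n + 1) * R (n + 1) + a n * a (n + 1) * R n) : ℤ) : ℝ)| < 1 := by
      rw [e]
      have ha1 := hale' (n + 1)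
      push_cast at ha1
      have p0 : (1 : ℝ) ≤ a n := by exact_mod_cast hapos n
      have p1 : (1 : ℝ) ≤ a (n + 1) := by exact_mod_cast hapos (n + 1)
      have p2 : (1 : ℝ) ≤ a (n + 2) := by exact_mod_cast hapos (n + 2)
      have g1 : (g (n + 1) : ℝ) = g n * a n := by exact_mod_cast ha n
      have g2 : (g (n + 2) : ℝ) = g (n + 1) * a (n + 1) := by exact_mod_cast ha (n + 1)
      have g3 : (g (n + 3) : ℝ) = g (n + 2) * a (n + 2) := by exact_mod_cast ha (n + 2)
      have q0 : (0 : ℝ) < Q n := by exact_mod_cast Q_pos n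
      have q1 : (0 : ℝ) < Q (n + 1) := by exact_mod_cast Q_pos (n + 1)
      have q2 : (0 : ℝ) < Q (n + 2) := by exact_mod_cast Q_pos (n + 2)
      have q3 : (0 : ℝ) < Q (n + 3) := by exact_mod_cast Q_pos (n + 3)
      have r1 : (n + 2 : ℝ) * Q n ≤ Q (n + 1) := by exact_mod_cast Q_ratio hn1
      have r2 : (4 * n + 6 : ℝ) * Q (n + 1) ≤ Q (n + 2) := by exact_mod_cast Q_ratio2 n
      have r3 : (4 : ℝ) * Q (n + 2) ≤ Q (n + 3) := by exact_mod_cast Q_ratio3 n
      have gp : (0 : ℝ) < g n := by exact_mod_cast hg.pos n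
      have gp1 : (0 : ℝ) < g (n + 1) := by exact_mod_cast hg.pos (n + 1)
      have gp2 : (0 : ℝ) < g (n + 2) := by exact_mod_cast hg.pos (n + 2)
      exact comb_lt (Nat.cast_nonneg n) p0 p1 p2 (by linarith) q0 q1 q2 r1 r2 r3
        (bound_of gp (by linarith) q1 g1 b0) (bound_of gp1 (by linarith) q2 g2 b1) (bound_of gp2 (by linarith) q3 g3 b2)
    have h0 : R (n + 2) - ((4 * n + 6) * a (n + 1) * R (n + 1) + a n * a (n + 1) * R n) = 0 := by
      rw [← Int.abs_lt_one_iff]
      exact_mod_cast hlt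
    linarith
  -- divide by the multipliers
  set S : ℕ → ℚ := fun n => (R n : ℚ) / g n with hS
  have hgq : ∀ n, (g n : ℚ) ≠ 0 := fun n => by exact_mod_cast (hg.pos n).ne'
  have hSrec : ∀ n, N ≤ n → S (n + 2) = (4 * n + 6) * S (n + 1) + S n := by
    intro n hn
    have g1 : (g (n + 1) : ℚ) = g n * a n := by exact_mod_cast ha n
    have g2 : (g (n + 2) : ℚ) = g (n + 1) * a (n + 1) := by exact_mod_cast ha (n + 1)
    have a0 : (a n : ℚ) ≠ 0 := by exact_mod_cast (hapos n).ne'
    have a1 : (a (n + 1) : ℚ) ≠ 0 := by exact_mod_cast (hapos (n + 1)).ne'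
    have g0 := hgq n
    rw [hS]
    simp only
    rw [hrec n hn, g2, g1]
    push_cast
    field_simp
  clear_value S
  -- solve for the coefficients
  set D : ℤ := (P (N + 1) : ℤ) * Q N - P N * Q (N + 1) with hD
  have hD0 : (D : ℚ) ≠ 0 := Int.cast_ne_zero.2 (det_ne N)
  set x : ℚ := (S (N + 1) * Q N - S N * Q (N + 1)) / D with hx
  set y : ℚ := (P (N + 1) * S N - P N * S (N + 1)) / D with hy
  have hcomb : ∀ n, N ≤ n → S n = x * P n + y * Q n ∧ S (n + 1) = x * P (n + 1) + y * Q (n + 1) := by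
    intro n hn
    induction n, hn using Nat.le_induction with
    | base =>
      have hDq : (D : ℚ) = P (N + 1) * Q N - P N * Q (N + 1) := by
        rw [hD]
        push_cast
        ring
      constructor
      · rw [hx, hy, div_mul_eq_mul_div, div_mul_eq_mul_div, ← add_div, eq_div_iff hD0, hDq]
        ring
      · rw [hx, hy, div_mul_eq_mul_div, div_mul_eq_mul_div, ← add_div, eq_div_iff hD0, hDq]
        ring
    | succ n hn ih =>
      refine ⟨ih.2, ?_⟩
      rw [show n + 1 + 1 = n + 2 from rfl, hSrec n hn, P_succ, Q_succ]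
      push_cast
      rw [ih.1, ih.2]
      ring
  refine ⟨x, y, ?_⟩
  -- pass to the limit
  have hlim : Tendsto (fun n : ℕ => α - (x * Real.exp 1 + y)) atTop (𝓝 0) := by
    have hbound : ∀ n, N ≤ n → 1 ≤ n →
        |α - (x * Real.exp 1 + y)| ≤ (1 / 2 + |(x : ℝ)| * g 0 * J n) * (1 / n) := by
      intro n hn hn1
      have hgn : (0 : ℝ) < g n := by exact_mod_cast hg.pos n
      have hgn1 : (1 : ℝ) ≤ g n := by exact_mod_cast hg.pos n
      have hf : (0 : ℝ) < n.factorial := by exact_mod_cast Nat.factorial_pos n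
      have h1 : (R n : ℝ) = g n * (x * P n + y * Q n) := by
        have h1q : (R n : ℚ) = g n * (x * P n + y * Q n) := by
          rw [← (hcomb n hn).1, hS]
          simp only
          rw [mul_div_cancel₀ _ (hgq n)]
        exact_mod_cast h1q
      have h2 := hη n
      have h3 := hermite n
      have hQ : (n : ℝ) ≤ Q n := by exact_mod_cast le_Q n
      have hn0 : (0 : ℝ) < n := by exact_mod_cast hn1
      have hQ0 : (0 : ℝ) < Q n := hn0.trans_le hQ
      have hA : (n : ℝ) ≤ g n * Q n := by nlinarith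
      have hA0 : (0 : ℝ) < g n * Q n := mul_pos hgn hQ0
      have e : (g n : ℝ) * Q n * (α - (x * Real.exp 1 + y)) =
          sd (g n * Q n * α) - x * (g n * ((-1) ^ n * (J n / n.factorial))) := by
        rw [← h3]
        have : (g n : ℝ) * Q n * (α - (x * Real.exp 1 + y)) =
            g n * Q n * α - g n * (x * P n + y * Q n) - x * (g n * ((Q n : ℝ) * Real.exp 1 - P n)) := by ring
        rw [this, ← h1]
        linarith
      have hJ : 0 ≤ J n / n.factorial := div_nonneg (J_pos n).le hf.le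
      have hgf : (g n : ℝ) ≤ n.factorial * g 0 := by exact_mod_cast hg.le_factorial n
      have h4 : |(g n : ℝ) * Q n * (α - (x * Real.exp 1 + y))| ≤ 1 / 2 + |(x : ℝ)| * g 0 * J n := by
        rw [e]
        refine (abs_sub _ _).trans (add_le_add (abs_sd_le _) ?_)
        rw [abs_mul, abs_mul, abs_mul, abs_pow, abs_neg, abs_one, one_pow, one_mul, abs_of_nonneg hJ,
          abs_of_pos hgn]
        calc |(x : ℝ)| * (g n * (J n / n.factorial)) ≤ |(x : ℝ)| * ((n.factorial * g 0) * (J n / n.factorial)) := by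
              gcongr
          _ = |(x : ℝ)| * g 0 * J n := by field_simp
      rw [abs_mul, abs_of_pos hA0] at h4
      have h5 : |α - (x * Real.exp 1 + y)| ≤ (1 / 2 + |(x : ℝ)| * g 0 * J n) / (g n * Q n) := by
        rw [le_div_iff₀ hA0]
        linarith
      refine h5.trans ?_
      rw [mul_one_div]
      have h6 : 0 ≤ 1 / 2 + |(x : ℝ)| * g 0 * J n := by
        have := (J_pos n).le
        positivity
      exact div_le_div_of_nonneg_left h6 hn0 hA
    refine squeeze_zero_norm' (a := fun n : ℕ => (1 / 2 + |(x : ℝ)| * g 0 * J n) * (1 / n)) ?_ ?_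
    · filter_upwards [eventually_ge_atTop N, eventually_ge_atTop 1] with n hn hn1
      rw [Real.norm_eq_abs]
      exact hbound n hn hn1
    · have h1 : Tendsto (fun n => 1 / 2 + |(x : ℝ)| * g 0 * J n) atTop (𝓝 (1 / 2 + |(x : ℝ)| * g 0 * 0)) :=
        (tendsto_J_zero.const_mul _).const_add _
      have h2 := h1.mul tendsto_one_div_atTop_nhds_zero_nat
      simpa using h2
  have := tendsto_nhds_unique tendsto_const_nhds hlim
  linarith


end Pool.Agent.Helper84.PE
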