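import Pool.Agent.Helper65.PE.Crit

/-!
# Convergence of the small multiples to zero
-/

set_option autoImplicit false

open Filter
open Pool.Agent.Helper65.PE

namespace Pool.Agent.Helper84.PE

/-- the multiples `j N_n α`, `1 ≤ j ≤ J n`, converge to `0` modulo one, uniformly in `j` -/
def Small (g J : ℕ → ℕ) (α : ℝ) : Prop :=
  ∀ ε : ℝ, 0 < ε → ∀ᶠ n : ℕ in atTop, ∀ j : ℕ, 1 ≤ j → j ≤ J n → |sd (j * (g n * Q n * α))| < ε

end Pool.Agent.Helper84.PE
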