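import Pool.Agent.Helper84.PE.Zero
import Pool.Agent.Helper84.PE.Small

/-!
# The dependent case: all small multiples are near the integers
-/

set_option autoImplicit false

open Filter Topology
open Pool.Agent.Helper65.PE

namespace Pool.Agent.Helper84.PE

variable {g : ℕ → ℕ}

theorem abs_sd_le_of_rat (hg : Mult g) {x y : ℚ} {α : ℝ} (hα : α = x * Real.exp 1 + y) : ∀ᶠ n in atTop,
    |sd (g n * Q n * α)| ≤ (|(x : ℝ)| * g 0 * (Real.exp (1 / 2) * 2)) * (1 / 4) ^ n := by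
  filter_upwards [sd_of_rat hg hα] with n hn
  have hf : (0 : ℝ) < n.factorial := by exact_mod_cast Nat.factorial_pos n
  have hgn : (0 : ℝ) ≤ g n := Nat.cast_nonneg _
  have hJ : 0 ≤ Pool.Agent.Helper65.PE.J n / n.factorial := div_nonneg (J_pos n).le hf.le
  have h3 : (g n : ℝ) ≤ n.factorial * g 0 := by exact_mod_cast hg.le_factorial n
  rw [hn, abs_mul, abs_pow, abs_neg, abs_one, one_pow, one_mul, abs_mul, abs_of_nonneg (mul_nonneg hgn hJ)]
  have h4 : Pool.Agent.Helper65.PE.J n ≤ Real.exp (1 / 2) * (2 * (1 / 4) ^ n) := by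
    refine (J_bounds n).2.trans (mul_le_mul_of_nonneg_left ?_ (Real.exp_pos _).le)
    have h2 : (1 : ℝ) / (8 * n + 12) ≤ 1 := by
      rw [div_le_one (by positivity)]
      have : (0 : ℝ) ≤ n := Nat.cast_nonneg n
      linarith
    have h3 := W_le n
    have h4 := W_pos n
    nlinarith
  calc |(x : ℝ)| * (g n * (Pool.Agent.Helper65.PE.J n / n.factorial))
      ≤ |(x : ℝ)| * ((n.factorial * g 0) * (Pool.Agent.Helper65.PE.J n / n.factorial)) := by
        gcongr
    _ = |(x : ℝ)| * g 0 * Pool.Agent.Helper65.PE.J n := by field_simp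
    _ ≤ |(x : ℝ)| * g 0 * (Real.exp (1 / 2) * (2 * (1 / 4) ^ n)) :=
        mul_le_mul_of_nonneg_left h4 (by positivity)
    _ = _ := by ring

/-- the dependent case: all multiples up to `3 ^ n` are near the integers -/
theorem small_of_rat (hg : Mult g) {x y : ℚ} {α : ℝ} (hα : α = x * Real.exp 1 + y) {ε : ℝ} (hε : 0 < ε) :
    ∀ᶠ n : ℕ in atTop, ∀ j : ℕ, j ≤ 3 ^ n → |sd (j * (g n * Q n * α))| < ε := by
  set C : ℝ := |(x : ℝ)| * g 0 * (Real.exp (1 / 2) * 2) with hC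
  have hlim : Tendsto (fun n : ℕ => C * (3 / 4 : ℝ) ^ n) atTop (𝓝 0) := by
    simpa using (tendsto_pow_atTop_nhds_zero_of_lt_one (r := (3 / 4 : ℝ)) (by norm_num) (by norm_num)).const_mul C
  filter_upwards [abs_sd_le_of_rat hg hα, hlim.eventually_lt_const hε] with n h1 h2 j hj
  have hj' : (j : ℝ) ≤ 3 ^ n := by exact_mod_cast hj
  refine lt_of_le_of_lt (abs_sd_nat_mul j _) (lt_of_le_of_lt ?_ h2)
  calc (j : ℝ) * |sd (g n * Q n * α)| ≤ 3 ^ n * (C * (1 / 4) ^ n) :=
        mul_le_mul hj' h1 (abs_nonneg _) (by positivity)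
    _ = C * (3 / 4 : ℝ) ^ n := by
        rw [show (3 / 4 : ℝ) = 3 * (1 / 4) by norm_num, mul_pow]
        ring

theorem sd_mul_of_small {θ : ℝ} : ∀ m : ℕ, (∀ j : ℕ, 1 ≤ j → j ≤ m → |sd (j * θ)| < 1 / 4) → sd (m * θ) = m * sd θ
  | 0, _ => by simp [sd]
  | 1, _ => by simp
  | m + 2, h => by
    have ih := sd_mul_of_small (θ := θ) (m + 1) fun j h1 h2 => h j h1 (by omega)
    have h1 := h (m + 1) (by omega) (by omega)
    have h2 := h 1 le_rfl (by omega)
    rw [Nat.cast_one, one_mul] at h2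
    have h3 : |sd (((m + 1 : ℕ) : ℝ) * θ) + sd θ| < 1 / 2 := by
      have := abs_add_le (sd (((m + 1 : ℕ) : ℝ) * θ)) (sd θ)
      linarith
    have e : ((m + 2 : ℕ) : ℝ) * θ = ((round (((m + 1 : ℕ) : ℝ) * θ) + round θ : ℤ) : ℝ) +
        (sd (((m + 1 : ℕ) : ℝ) * θ) + sd θ) := by
      unfold sd
      push_cast
      ring
    rw [e, sd_int_add _ h3, ih]
    push_cast
    ring

theorem not_small (hg : Mult g) {J : ℕ → ℕ} {α : ℝ} (h : ¬ ∃ x y : ℚ, α = x * Real.exp 1 + y)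
    (hJ : Tendsto (fun n : ℕ => (J n : ℝ) * (g n * Q n) / (g (n + 1) * Q (n + 1))) atTop atTop) :
    ¬ Small g J α := by
  intro hs
  obtain ⟨n, h1, h2⟩ := ((frequently_far hg h hJ 1).and_eventually (hs (1 / 4) (by norm_num))).exists
  have h3 := h1 1 le_rfl le_rfl
  rw [Nat.cast_one, one_mul] at h3
  have h4 := sd_mul_of_small (J n) h2
  have hJn : 1 ≤ J n := by
    rcases Nat.eq_zero_or_pos (J n) with h0 | h0
    · rw [h0] at h3
      norm_num at h3
    · exact h0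
  have h5 := h2 (J n) hJn le_rfl
  rw [h4, abs_mul, Nat.abs_cast] at h5
  linarith

theorem sum_pt {J : ℕ → ℕ} (α : ℝ) (n : ℕ) (f : ℝ → ℝ) :
    ∑ j ∈ Finset.range (J n), f (pt g α n j) = ∑ j ∈ Finset.Icc 1 (J n), f (j * (g n * Q n * α)) := by
  generalize J n = m
  induction m with
  | zero => simp
  | succ m ih =>
    rw [Finset.sum_range_succ, ih, Finset.sum_Icc_succ_top (by omega)]
    unfold pt
    push_cast
    rfl

end Pool.Agent.Helper84.PE
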