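import Pool.Agent.Helper84.PE.Law

/-!
# The exponent two is sharp: nested intervals
-/

set_option autoImplicit false

open Filter Topology
open Pool.Agent.Helper65.PE

namespace Pool.Agent.Helper84.PE

/-- one step: an integer `b` with `[b / M, b / M + 3 / L]` inside `[a / N, a / N + 3 / M]` and away from `x` -/
theorem step {N M L : ℝ} (hM : 0 < M) (hL : 3 * M < L) (a : ℤ) (x : ℝ) :
    ∃ b : ℤ, (a : ℝ) / N ≤ b / M ∧ (b : ℝ) / M + 3 / L ≤ a / N + 3 / M ∧
      ¬ (b / M ≤ x ∧ x ≤ b / M + 3 / L) := by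
  set m : ℤ := ⌈M * (a / N)⌉ with hm
  have h1 : M * (a / N) ≤ m := Int.le_ceil _
  have h2 : (m : ℝ) < M * (a / N) + 1 := Int.ceil_lt_add_one _
  have hL0 : 0 < L := by linarith
  have h3 : 3 / L < 1 / M := by
    rw [div_lt_div_iff₀ hL0 hM]
    linarith
  have h4 : (a : ℝ) / N ≤ m / M := by
    rw [le_div_iff₀ hM]
    linarith
  have h5 : (m : ℝ) / M < a / N + 1 / M := by
    rw [div_lt_iff₀ hM, add_mul, one_div_mul_cancel hM.ne']
    linarith
  have h6 : (((m + 1 : ℤ) : ℝ)) / M = m / M + 1 / M := by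
    push_cast
    rw [add_div]
  have h7 : (3 : ℝ) / M = 1 / M + 1 / M + 1 / M := by ring
  have h8 : 0 < 1 / M := by positivity
  by_cases hx : (m : ℝ) / M ≤ x ∧ x ≤ m / M + 3 / L
  · refine ⟨m + 1, ?_, ?_, ?_⟩
    · rw [h6]; linarith
    · rw [h6]; linarith
    · rw [h6]
      rintro ⟨h9, -⟩
      linarith [hx.2]
  · refine ⟨m, h4, ?_, hx⟩
    linarith

/-- nested intervals which avoid a given sequence -/
theorem nested {N : ℕ → ℝ} (hN : ∀ n, 0 < N n) (hr : ∀ n, 3 * N (n + 1) < N (n + 2)) (x : ℕ → ℝ) :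
    ∃ α : ℝ, (∀ n, α ≠ x n) ∧ ∀ n, ∃ a : ℤ, |N n * α - a| ≤ 3 * N n / N (n + 1) := by
  choose b hb1 hb2 hb3 using fun (n : ℕ) (a : ℤ) => step (N := N n) (hN (n + 1)) (hr n) a (x n)
  let a : ℕ → ℤ := fun n => Nat.rec (motive := fun _ => ℤ) 0 (fun n a => b n a) n
  have ha : ∀ n, a (n + 1) = b n (a n) := fun n => rfl
  have hlow : Monotone fun n => (a n : ℝ) / N n := by
    refine monotone_nat_of_le_succ fun n => ?_
    rw [ha]
    exact hb1 n (a n)
  have hup : Antitone fun n => (a n : ℝ) / N n + 3 / N (n + 1) := by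
    refine antitone_nat_of_succ_le fun n => ?_
    rw [ha]
    exact hb2 n (a n)
  have hle : (fun n => (a n : ℝ) / N n) ≤ fun n => (a n : ℝ) / N n + 3 / N (n + 1) := fun n => by
    have := hN (n + 1)
    have h3 : 0 < 3 / N (n + 1) := by positivity
    show (a n : ℝ) / N n ≤ (a n : ℝ) / N n + 3 / N (n + 1)
    linarith
  have hmem := hlow.ciSup_mem_iInter_Icc_of_antitone hup hle
  set α : ℝ := ⨆ n, (a n : ℝ) / N n with hα
  rw [Set.mem_iInter] at hmem
  refine ⟨α, fun n hn => ?_, fun n => ⟨(a n : ℤ), ?_⟩⟩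
  · have h1 := hmem (n + 1)
    rw [hn, ha] at h1
    exact hb3 n (a n) h1
  · have h1 := hmem n
    have hNn := hN n
    have h2 : N n * α - a n = N n * (α - a n / N n) := by
      field_simp
    rw [h2, abs_mul, abs_of_pos hNn, abs_of_nonneg (by linarith [h1.1]), mul_comm 3, mul_div_assoc]
    refine mul_le_mul_of_nonneg_left ?_ hNn.le
    linarith [h1.2]

/-- below the threshold: every countable set misses a number with convergence to zero -/
theorem sharp {g : ℕ → ℕ} (hg : Mult g) {J : ℕ → ℕ}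
    (hJ : Tendsto (fun n : ℕ => (J n : ℝ) * (g n * Q n) / (g (n + 1) * Q (n + 1))) atTop (𝓝 0))
    {A : Set ℝ} (hA : A.Countable) : ∃ α : ℝ, α ∉ A ∧ Small g J α := by
  obtain ⟨x, hx⟩ : ∃ x : ℕ → ℝ, A ⊆ Set.range x := by
    rcases A.eq_empty_or_nonempty with h0 | h0
    · exact ⟨fun _ => 0, by rw [h0]; exact Set.empty_subset _⟩
    · obtain ⟨x, hx⟩ := hA.exists_eq_range h0
      exact ⟨x, hx.le⟩
  have hN : ∀ n : ℕ, (0 : ℝ) < g n * Q n := fun n => by
    have h1 : (0 : ℝ) < g n := by exact_mod_cast hg.pos _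
    have h2 : (0 : ℝ) < Q n := by exact_mod_cast Q_pos _
    positivity
  have hr : ∀ n : ℕ, 3 * ((g (n + 1) : ℝ) * Q (n + 1)) < g (n + 2) * Q (n + 2) := by
    intro n
    have h1 : 3 * (g (n + 1) * Q (n + 1)) < g (n + 2) * Q (n + 2) := by
      have h2 : g (n + 1) ≤ g (n + 2) := Nat.le_of_dvd (hg.pos _) (hg.dvd _)
      have h3 := Q_ratio2 n
      have h4 := Q_pos (n + 1)
      have h5 := hg.pos (n + 1)
      have h6 : 4 * Q (n + 1) ≤ Q (n + 2) := by nlinarith [Nat.zero_le (n * Q (n + 1))]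
      calc 3 * (g (n + 1) * Q (n + 1)) < 4 * (g (n + 1) * Q (n + 1)) := by
            have := Nat.mul_pos h5 h4
            omega
        _ = g (n + 1) * (4 * Q (n + 1)) := by ring
        _ ≤ g (n + 2) * Q (n + 2) := Nat.mul_le_mul h2 h6
    exact_mod_cast h1
  obtain ⟨α, hα1, hα2⟩ := nested hN hr x
  refine ⟨α, fun hc => ?_, fun ε hε => ?_⟩
  · obtain ⟨n, hn⟩ := hx hc
    exact hα1 n hn.symm
  have hev : ∀ᶠ n : ℕ in atTop, (J n : ℝ) * (g n * Q n) / (g (n + 1) * Q (n + 1)) < ε / 3 :=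
    hJ.eventually_lt_const (by positivity)
  filter_upwards [hev] with n hn j _ hj
  obtain ⟨a, ha⟩ := hα2 n
  have h1 : |sd (g n * Q n * α)| ≤ 3 * (g n * Q n) / (g (n + 1) * Q (n + 1)) := (abs_sd_le_sub _ a).trans ha
  refine lt_of_le_of_lt (abs_sd_nat_mul j _) ?_
  have hj' : (j : ℝ) ≤ J n := by exact_mod_cast hj
  calc (j : ℝ) * |sd (g n * Q n * α)|
      ≤ J n * (3 * (g n * Q n) / (g (n + 1) * Q (n + 1))) := mul_le_mul hj' h1 (abs_nonneg _) (Nat.cast_nonneg _)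
    _ = 3 * (J n * (g n * Q n) / (g (n + 1) * Q (n + 1))) := by ring
    _ < ε := by linarith

/-- below the threshold: the set of these numbers is uncountable -/
theorem not_countable_small {g : ℕ → ℕ} (hg : Mult g) {J : ℕ → ℕ}
    (hJ : Tendsto (fun n : ℕ => (J n : ℝ) * (g n * Q n) / (g (n + 1) * Q (n + 1))) atTop (𝓝 0)) :
    ¬ {α : ℝ | Small g J α}.Countable := by
  intro hA
  obtain ⟨α, h1, h2⟩ := sharp hg hJ hA
  exact h1 h2

end Pool.Agent.Helper84.PE
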