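import Pool.Agent.Helper84.PE.Gap
import Pool.Agent.Helper84.PE.Equi

/-!
# The zero-one law for the multiples of `N n = g n * Q n`
-/

set_option autoImplicit false

open Filter Topology
open Pool.Agent.Helper65.PE

namespace Pool.Agent.Helper84.PE

variable {g J : ℕ → ℕ}

theorem abs_sd_le_sub (x : ℝ) (m : ℤ) : |sd x| ≤ |x - m| := round_le x m

theorem abs_sd_nat_mul (k : ℕ) (x : ℝ) : |sd (k * x)| ≤ k * |sd x| := by
  have h := abs_sd_le_sub (k * x) (k * round x)
  have e : (k : ℝ) * x - ((k * round x : ℤ) : ℝ) = k * sd x := by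
    unfold sd; push_cast; ring
  rw [e, abs_mul, Nat.abs_cast] at h
  exact h

/-- the points `j N_n α`, `1 ≤ j`, of the level `n` -/
noncomputable def pt (g : ℕ → ℕ) (α : ℝ) (n j : ℕ) : ℝ := ((j : ℝ) + 1) * (g n * Q n * α)

/-- infinitely often all small multiples of `N n * α` are far from the integers, on the scale `1 / J n` -/
theorem frequently_far (hg : Mult g) {α : ℝ} (h : ¬ ∃ x y : ℚ, α = x * Real.exp 1 + y)
    (hJ : Tendsto (fun n : ℕ => (J n : ℝ) * (g n * Q n) / (g (n + 1) * Q (n + 1))) atTop atTop) (H : ℕ) :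
    ∃ᶠ n : ℕ in atTop, ∀ k : ℕ, 1 ≤ k → k ≤ H → (H : ℝ) ≤ J n * |sd (k * (g n * Q n * α))| := by
  by_contra hc
  rw [not_frequently] at hc
  apply h
  have hfac : (0 : ℝ) < H.factorial := by exact_mod_cast Nat.factorial_pos H
  have hbig : ∀ᶠ n : ℕ in atTop, 3 * ((H.factorial : ℝ) * (H + 1)) ≤
      (J n : ℝ) * (g n * Q n) / (g (n + 1) * Q (n + 1)) := hJ.eventually_ge_atTop _
  have key : ∀ᶠ n : ℕ in atTop,
      |sd (g n * Q n * ((H.factorial : ℝ) * α))| ≤ (g n * Q n : ℝ) / (3 * (g (n + 1) * Q (n + 1))) := by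
    filter_upwards [hc, hbig] with n hn hb
    push Not at hn
    obtain ⟨k, hk1, hk2, hk3⟩ := hn
    have hJpos : (0 : ℝ) < J n := by
      by_contra hneg
      have h0 : (J n : ℝ) = 0 := le_antisymm (not_lt.1 hneg) (Nat.cast_nonneg _)
      rw [h0, zero_mul, zero_div] at hb
      have : (0 : ℝ) < 3 * ((H.factorial : ℝ) * (H + 1)) := by positivity
      linarith
    have hN1 : (0 : ℝ) < g (n + 1) * Q (n + 1) := by
      have h1 : (0 : ℝ) < g (n + 1) := by exact_mod_cast hg.pos _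
      have h2 : (0 : ℝ) < Q (n + 1) := by exact_mod_cast Q_pos _
      positivity
    obtain ⟨c, hcc⟩ : k ∣ H.factorial := Nat.dvd_factorial hk1 hk2
    have hcle : (c : ℝ) ≤ H.factorial := by
      have : c ≤ H.factorial := by rw [hcc]; exact Nat.le_mul_of_pos_left c hk1
      exact_mod_cast this
    have e : (g n * Q n * ((H.factorial : ℝ) * α) : ℝ) = (c : ℝ) * ((k : ℝ) * (g n * Q n * α)) := by
      rw [hcc]; push_cast; ring
    rw [e]
    have h1 := abs_sd_nat_mul c ((k : ℝ) * (g n * Q n * α))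
    have h2 : |sd ((k : ℝ) * (g n * Q n * α))| < H / J n := by
      rw [lt_div_iff₀ hJpos]; linarith
    have h3 : (c : ℝ) * |sd ((k : ℝ) * (g n * Q n * α))| ≤ H.factorial * (H / J n) :=
      mul_le_mul hcle h2.le (abs_nonneg _) hfac.le
    refine h1.trans (h3.trans ?_)
    have h4 : (H.factorial : ℝ) * (H / J n) = H.factorial * H / J n := by ring
    rw [h4, div_le_div_iff₀ hJpos (by positivity)]
    rw [le_div_iff₀ hN1] at hb
    have hH0 : (0 : ℝ) ≤ H := Nat.cast_nonneg H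
    have h6 : (H.factorial : ℝ) * H * (3 * (g (n + 1) * Q (n + 1))) ≤
        3 * ((H.factorial : ℝ) * (H + 1)) * (g (n + 1) * Q (n + 1)) := by
      have : (H.factorial : ℝ) * H * (3 * (g (n + 1) * Q (n + 1))) + 3 * ((H.factorial : ℝ) * (g (n + 1) * Q (n + 1))) =
          3 * ((H.factorial : ℝ) * (H + 1)) * (g (n + 1) * Q (n + 1)) := by ring
      have h7 : 0 ≤ 3 * ((H.factorial : ℝ) * (g (n + 1) * Q (n + 1))) := by positivity
      linarith
    linarith
  obtain ⟨x, y, hxy⟩ := gap_ratio hg key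
  refine ⟨x / H.factorial, y / H.factorial, ?_⟩
  push_cast
  field_simp
  linarith

/-- the distance to the integers in terms of the exponential function -/
theorem norm_exp_sub_one (x : ℝ) :
    4 * |sd x| ≤ ‖Complex.exp (2 * Real.pi * Complex.I * x) - 1‖ := by
  have h1 : Complex.exp (2 * Real.pi * Complex.I * x) =
      Complex.exp (Complex.I * ((2 * Real.pi * sd x : ℝ) : ℂ)) := by
    have e : (2 * Real.pi * Complex.I * x : ℂ) =
        Complex.I * ((2 * Real.pi * sd x : ℝ) : ℂ) + (round x : ℤ) * (2 * Real.pi * Complex.I) := by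
      unfold sd
      push_cast
      ring
    rw [e, Complex.exp_add, Complex.exp_int_mul_two_pi_mul_I, mul_one]
  rw [h1, Complex.norm_exp_I_mul_ofReal_sub_one]
  have h2 : 2 * Real.pi * sd x / 2 = Real.pi * sd x := by ring
  rw [h2, Real.norm_eq_abs, abs_mul, abs_of_pos (by norm_num : (0:ℝ) < 2)]
  have h3 : |Real.pi * sd x| ≤ Real.pi / 2 := by
    rw [abs_mul, abs_of_pos Real.pi_pos]
    have := abs_sd_le x
    nlinarith [Real.pi_pos]
  have h4 := Real.mul_abs_le_abs_sin h3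
  rw [abs_mul, abs_of_pos Real.pi_pos] at h4
  have h5 : 2 / Real.pi * (Real.pi * |sd x|) = 2 * |sd x| := by
    field_simp
  linarith

/-- Weyl sums over multiples -/
theorem norm_cavg_le' (k : ℤ) {x : ℕ → ℕ → ℝ} {θ : ℕ → ℝ} (hx : ∀ i j, x i j = ((j : ℝ) + 1) * θ i) (i : ℕ)
    (K : ℕ → ℕ) : 4 * |sd (k * θ i)| * (K i * ‖cavg K x i (fourier k)‖) ≤ 2 := by
  set z : ℂ := Complex.exp (2 * Real.pi * Complex.I * ((k * θ i : ℝ) : ℂ)) with hz
  have hz1 : ‖z‖ = 1 := by
    have : (2 * Real.pi * Complex.I * ((k * θ i : ℝ) : ℂ) : ℂ) = ((2 * Real.pi * (k * θ i) : ℝ) : ℂ) * Complex.I := by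
      push_cast; ring
    rw [hz, this]
    exact Complex.norm_exp_ofReal_mul_I _
  have hF : ∀ j, (fourier k (x i j : UnitAddCircle) : ℂ) = z * z ^ j := by
    intro j
    rw [fourier_coe_apply, hx, hz, ← pow_succ', ← Complex.exp_nat_mul]
    congr 1
    push_cast
    ring
  have hsum : ∑ j ∈ Finset.range (K i), (fourier k (x i j : UnitAddCircle) : ℂ) =
      z * ∑ j ∈ Finset.range (K i), z ^ j := by
    rw [Finset.mul_sum]
    exact Finset.sum_congr rfl fun j _ => hF j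
  have hgeo : ‖z - 1‖ * ‖∑ j ∈ Finset.range (K i), z ^ j‖ ≤ 2 := by
    rw [← norm_mul, mul_geom_sum]
    calc ‖z ^ K i - 1‖ ≤ ‖z ^ K i‖ + ‖(1 : ℂ)‖ := norm_sub_le _ _
      _ = 2 := by rw [norm_pow, hz1, one_pow, norm_one]; norm_num
  have hle := norm_exp_sub_one (k * θ i)
  rcases Nat.eq_zero_or_pos (K i) with h0 | h0
  · simp [h0]
  have hK : (0 : ℝ) < K i := by exact_mod_cast h0
  have e1 : (K i : ℝ) * ‖cavg K x i (fourier k)‖ = ‖∑ j ∈ Finset.range (K i), z ^ j‖ := by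
    unfold cavg
    rw [hsum, norm_div, norm_mul, hz1, one_mul, Complex.norm_natCast]
    field_simp
  rw [e1]
  refine le_trans ?_ hgeo
  exact mul_le_mul_of_nonneg_right hle (norm_nonneg _)

/-- **Equidistribution along a subsequence.** -/
theorem equidistributed (hg : Mult g) {α : ℝ} (h : ¬ ∃ x y : ℚ, α = x * Real.exp 1 + y)
    (hJ : Tendsto (fun n : ℕ => (J n : ℝ) * (g n * Q n) / (g (n + 1) * Q (n + 1))) atTop atTop) :
    ∃ φ : ℕ → ℕ, StrictMono φ ∧ ∀ f : ℝ → ℝ, Continuous f → Function.Periodic f 1 →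
      Tendsto (fun i => (∑ j ∈ Finset.range (J (φ i)), f (pt g α (φ i) j)) / (J (φ i) : ℝ)) atTop
        (𝓝 (∫ t in (0:ℝ)..1, f t)) := by
  have hfreq : ∀ H : ℕ, ∃ᶠ n : ℕ in atTop,
      (∀ k : ℕ, 1 ≤ k → k ≤ H → (H : ℝ) ≤ J n * |sd (k * (g n * Q n * α))|) := fun H =>
    frequently_far hg h hJ H
  obtain ⟨φ, hφ, hφ2⟩ := extraction_forall_of_frequently hfreq
  refine ⟨φ, hφ, fun f hf hp => ?_⟩
  have hJ0 : ∀ᶠ n : ℕ in atTop, 0 < J n := by
    filter_upwards [hJ.eventually_gt_atTop 0] with n hn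
    rcases Nat.eq_zero_or_pos (J n) with h0 | h0
    · simp [h0] at hn
    · exact h0
  have hJφ : ∀ᶠ i : ℕ in atTop, 0 < J (φ i) := hφ.tendsto_atTop.eventually hJ0
  set θ : ℕ → ℝ := fun i => g (φ i) * Q (φ i) * α with hθ
  set x : ℕ → ℕ → ℝ := fun i j => pt g α (φ i) j with hx
  have hxe : ∀ i j, x i j = ((j : ℝ) + 1) * θ i := fun i j => rfl
  have main := tendsto_ravg (fun i => J (φ i)) x hJφ ?_ hf hp
  · exact main
  intro k hk
  rw [tendsto_zero_iff_norm_tendsto_zero]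
  have hlim : Tendsto (fun i : ℕ => 1 / (i : ℝ)) atTop (𝓝 0) := tendsto_one_div_atTop_nhds_zero_nat
  refine squeeze_zero' (Eventually.of_forall fun i => norm_nonneg _) ?_ hlim
  filter_upwards [hJφ, eventually_ge_atTop (max 1 k.natAbs)] with i hi hik
  have hi1 : 1 ≤ i := le_trans (le_max_left _ _) hik
  have hi2 : k.natAbs ≤ i := le_trans (le_max_right _ _) hik
  have hkp : 1 ≤ k.natAbs := Nat.one_le_iff_ne_zero.2 (Int.natAbs_ne_zero.2 hk)
  have h1 := norm_cavg_le' k hxe i (fun i => J (φ i))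
  have h2 := hφ2 i k.natAbs hkp hi2
  have h3 : |sd ((k.natAbs : ℝ) * (g (φ i) * Q (φ i) * α))| ≤ |sd (k * θ i)| := by
    rcases Int.natAbs_eq k with hk' | hk'
    · have : (k : ℝ) = (k.natAbs : ℝ) := by
        have h0 := congrArg (Int.cast (R := ℝ)) hk'
        rw [Int.cast_natCast] at h0
        exact h0
      rw [this]
    · have hk2 : (k : ℝ) = -(k.natAbs : ℝ) := by
        have h0 := congrArg (Int.cast (R := ℝ)) hk'
        rw [Int.cast_neg, Int.cast_natCast] at h0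
        exact h0
      have h4 := abs_sd_le_sub ((k.natAbs : ℝ) * (g (φ i) * Q (φ i) * α)) (-(round (k * θ i)))
      refine h4.trans (le_of_eq ?_)
      unfold sd
      rw [hk2]
      push_cast
      rw [← abs_neg]
      congr 1
      simp only [hθ]
      ring
  have hi0 : (0 : ℝ) < i := by exact_mod_cast hi1
  rw [le_div_iff₀ hi0]
  have h5 : (i : ℝ) ≤ J (φ i) * |sd (k * θ i)| :=
    h2.trans (mul_le_mul_of_nonneg_left h3 (Nat.cast_nonneg _))
  have h6 := norm_nonneg (cavg (fun i => J (φ i)) x i (fourier k))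
  nlinarith [mul_le_mul_of_nonneg_right h5 h6]

end Pool.Agent.Helper84.PE
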